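import Pool.Agent.W736.HF.JLa
import Pool.Agent.W169.HF.DefsC

set_option autoImplicit false

/-!
# SC-JL2: lower bound for the half-line integral with a majorant (after `Pool.Agent.W736.HF.JL`)
-/

namespace Pool.Agent.W816.HF

open Complex MeasureTheory Filter Topology Set
open Pool.Agent.W169.HF Pool.Agent.W736.HF2

/-- All estimates for one function. -/
lemma core2 {K ϑ0 ϑ g X Y ζ κ δ κ0 ℓ G t : ℝ} {f : ℂ → ℂ} (hS : S_SADL) (hK : 1 ≤ K)
    (hϑ02 : ϑ0 ≤ 2) (hϑ : 0 ≤ ϑ) (hg : 0 < g) (hg1 : g ≤ 1) (hX : 1 ≤ X) (hY : 3 ≤ Y)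
    (hζ : 0 < ζ) (hζ1 : ζ * (160 * X) ≤ g) (hκ : κ = g ^ 2 / (1600 * X)) (hδ : δ = ζ ^ 2 * X / 2)
    (hκ0 : 0 < κ0) (hκ01 : κ0 * (400000 * X) ≤ g) (hκ02 : κ0 * (8 * X) ≤ δ * g)
    (hUD : UD K ϑ0 ℓ G f) (hPf : Pf κ0 ϑ (2 * X + 2 * Y + 4) ℓ G f) (ht : 0 < t)
    (h1 : g ≤ 2 * t * ℓ) (h2 : 2 * t * ℓ ≤ X)
    (hℓ1 : 16 * X * (2 * K + 1) ≤ ℓ) (hℓ2 : 8 * (2 * X + 2 * Y + 4) ≤ κ * ℓ) (hℓ3 : 8 ≤ δ * ℓ)
    (hℓ4 : X * (30000 ^ 2 + 400 / g ^ 2) ≤ ℓ) (hℓ5 : 2 * ℓ / g ≤ Real.exp (δ / 8 * ℓ))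
    (a : ℂ) (ha1 : |a.im| ≤ ζ * ℓ) (ha2 : 2 * t * a.re ≤ Y)
    (ha3 : ϑ + g / 2 ≤ 2 * t * a.re + 2 * t * ℓ) (m : ℝ → ℝ)
    (hm : ∀ r : ℝ, 0 ≤ r → r ≤ ϑ → ‖f r‖ ≤ G * Real.exp (m r + κ0 * ℓ) ∧
      -(r ^ 2 / (4 * t)) + a.re * r + m r ≤ t * (ℓ + a.re) ^ 2 - κ * ℓ) :
    G * Real.exp (t * (ℓ + a.re) ^ 2 - ζ ^ 2 * X * ℓ) ≤ ‖J t f a‖ := by
  have hG := hUD.hG
  have hXp : 0 < X := by linarith only [hX]
  have hℓ : 0 < ℓ := by
    have : 0 < 16 * X * (2 * K + 1) := by positivity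
    linarith only [hℓ1, this]
  obtain ⟨R, hR⟩ : ∃ R : ℝ, R = 2 * X + 2 * Y + 4 := ⟨_, rfl⟩
  obtain ⟨σ, hσ⟩ : ∃ σ : ℝ, σ = 2 * t * a.re := ⟨_, rfl⟩
  obtain ⟨b, hb⟩ : ∃ b : ℝ, b = 2 * t * a.im := ⟨_, rfl⟩
  obtain ⟨L, hL⟩ : ∃ L : ℝ, L = 2 * t * ℓ := ⟨_, rfl⟩
  obtain ⟨θ, hθ⟩ : ∃ θ : ℝ, θ = κ0 * X := ⟨_, rfl⟩
  obtain ⟨a0, ha0⟩ : ∃ a0 : ℝ, a0 = g / 20 := ⟨_, rfl⟩
  obtain ⟨M, hM⟩ : ∃ M : ℝ, M = ℓ * σ + t * ℓ ^ 2 := ⟨_, rfl⟩
  rw [← hR] at hPf hℓ2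
  rw [← hσ] at ha2 ha3
  have hκp : 0 < κ := by rw [hκ]; positivity
  have hδp : 0 < δ := by rw [hδ]; positivity
  have hθ0 : 0 < θ := by rw [hθ]; positivity
  have hθ1 : θ ≤ g / 400000 := by rw [hθ]; linarith only [hκ01]
  have ha00 : 0 < a0 := by rw [ha0]; positivity
  have hζX : ζ * X ≤ g / 160 := by linarith only [hζ1]
  have hζ1' : ζ ≤ g / 160 := by
    have : ζ * 1 ≤ ζ * X := mul_le_mul_of_nonneg_left hX hζ.le
    linarith only [this, hζX]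
  have hκ1 : κ ≤ a0 ^ 2 / (4 * X) := by
    rw [hκ, ha0]
    apply le_of_eq
    field_simp
    ring
  have hκ2 : κ ≤ g / 4 := by
    rw [hκ, div_le_div_iff₀ (by positivity) (by norm_num)]
    nlinarith only [hg, hg1, hX]
  have hκ3 : κ ≤ 1 / X := by
    rw [hκ, div_le_div_iff₀ (by positivity) (by positivity)]
    have h3 : g ^ 2 ≤ 1 := by nlinarith only [hg, hg1]
    have h4 : g ^ 2 * X ≤ 1 * X := mul_le_mul_of_nonneg_right h3 hXp.le
    linarith only [h4, hXp]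
  have hδκ : 32 * δ ≤ κ := by
    rw [hδ, hκ, le_div_iff₀ (by positivity)]
    have h3 : (ζ * X) ^ 2 ≤ (g / 160) ^ 2 := by
      have : 0 ≤ ζ * X := by positivity
      gcongr
    calc 32 * (ζ ^ 2 * X / 2) * (1600 * X) = 25600 * (ζ * X) ^ 2 := by ring
      _ ≤ 25600 * (g / 160) ^ 2 := by linarith only [h3]
      _ = g ^ 2 := by ring
  have hκ0δ : κ0 ≤ δ / 8 := by
    have h3 : κ0 * 8 * 1 ≤ κ0 * 8 * X := mul_le_mul_of_nonneg_left hX (by positivity)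
    have h4 : δ * g ≤ δ * 1 := mul_le_mul_of_nonneg_left hg1 hδp.le
    linarith only [h3, h4, hκ02]
  have hθδ : θ ≤ δ * g / 8 := by rw [hθ]; linarith only [hκ02]
  have hθζ : θ ≤ ζ * g := by
    refine hθδ.trans ?_
    rw [hδ]
    have h3 : ζ * g * (ζ * X) ≤ ζ * g * (g / 160) :=
      mul_le_mul_of_nonneg_left hζX (by positivity)
    have h4 : ζ * g * (g / 160) ≤ ζ * g * (1 / 160) :=
      mul_le_mul_of_nonneg_left (by linarith only [hg1]) (by positivity)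
    have h5 : 0 < ζ * g := by positivity
    linarith only [h3, h4, h5]
  have hLg : g ≤ L := by rw [hL]; exact h1
  have hLX : L ≤ X := by rw [hL]; exact h2
  have hbL : |b| ≤ ζ * L := by
    rw [hb, hL, abs_mul, abs_of_pos (by positivity : (0 : ℝ) < 2 * t)]
    calc 2 * t * |a.im| ≤ 2 * t * (ζ * ℓ) := mul_le_mul_of_nonneg_left ha1 (by positivity)
      _ = ζ * (2 * t * ℓ) := by ring
  have hζL : ζ * L ≤ g / 160 := (mul_le_mul_of_nonneg_left hLX hζ.le).trans hζX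
  have hθL : θ ≤ ζ * L := hθζ.trans (mul_le_mul_of_nonneg_left hLg hζ.le)
  have hR12 : 12 ≤ R := by rw [hR]; linarith only [hX, hY]
  -- the parameter s
  obtain ⟨s, hs⟩ : ∃ s : ℝ, s = Real.sqrt (1 / (2 * t)) := ⟨_, rfl⟩
  have hs2 : s ^ 2 = 1 / (2 * t) := by rw [hs]; exact Real.sq_sqrt (by positivity)
  have hs0 : 0 ≤ s := by rw [hs]; exact Real.sqrt_nonneg _
  have hsL : ℓ / X ≤ s ^ 2 := by
    rw [hs2, div_le_div_iff₀ hXp (by positivity)]; linarith only [h2]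
  have hsL2 : s ^ 2 ≤ ℓ / g := by
    rw [hs2, div_le_div_iff₀ (by positivity) hg]; linarith only [h1]
  have hs3 : 30000 ^ 2 + 400 / g ^ 2 ≤ s ^ 2 := by
    refine le_trans ?_ hsL
    rw [le_div_iff₀ hXp]; linarith only [hℓ4]
  have hs4 : 30000 ≤ s := by
    have h0 : (0 : ℝ) ≤ 400 / g ^ 2 := by positivity
    exact (sq_le_sq₀ (by norm_num) hs0).1 (by linarith only [h0, hs3])
  have hs5 : 5 / (g / 4) ≤ s := by
    refine (sq_le_sq₀ (by positivity) hs0).1 ?_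
    have e : (5 / (g / 4)) ^ 2 = 400 / g ^ 2 := by
      field_simp
      norm_num
    rw [e]
    linarith only [hs3]
  have hsp : 0 < s := by linarith only [hs4]
  have hs1 : 1 ≤ s := by linarith only [hs4]
  -- the saddle point
  obtain ⟨z, hz⟩ : ∃ z : ℂ, z = 2 * t * a := ⟨_, rfl⟩
  obtain ⟨p, hpd⟩ : ∃ p : ℂ, p = z + (L : ℂ) := ⟨_, rfl⟩
  have hzr : z.re = σ := by rw [hz, hσ]; simp [Complex.mul_re]
  have hzi : z.im = b := by rw [hz, hb]; simp [Complex.mul_im]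
  have hpr : p.re = σ + L := by rw [hpd, Complex.add_re, Complex.ofReal_re, hzr]
  have hpi : p.im = b := by rw [hpd, Complex.add_im, Complex.ofReal_im, hzi, add_zero]
  have hC2 : ϑ + g / 2 ≤ σ + L := by
    rw [hL]; exact ha3
  have hbL' := abs_le.1 (hbL.trans hζL)
  have hreg : ∀ w : ℂ, ‖w - p‖ ≤ g / 4 → ϑ ≤ w.re ∧ w.re ≤ R ∧ |w.im| ≤ R := by
    intro w hw
    have a1 := (Complex.abs_re_le_norm (w - p)).trans hw
    have a2 := (Complex.abs_im_le_norm (w - p)).trans hw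
    rw [Complex.sub_re, hpr, abs_le] at a1
    rw [Complex.sub_im, hpi, abs_le] at a2
    refine ⟨by linarith only [a1.1, hC2, hg], ?_, ?_⟩
    · rw [hR]
      linarith only [a1.2, ha2, hLX, hg1, hXp, hY]
    · rw [abs_le]
      constructor <;> linarith only [a2.1, a2.2, hbL'.1, hbL'.2, hg1, hR12]
  have hLc : Lc (g / 4) s θ (ℓ : ℂ) p f := by
    intro w hw
    rw [Metric.mem_ball, dist_eq_norm] at hw
    obtain ⟨b1, b2, b3⟩ := hreg w hw.le
    refine ⟨hUD.slow.1 w, ?_, ?_⟩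
    · have h3 := hPf.low w b1 b2 b3
      have h4 : 0 < G * Real.exp (ℓ * w.re - κ0 * ℓ) := by positivity
      exact norm_pos_iff.1 (lt_of_lt_of_le h4 h3)
    · refine (hPf.der w b1 b2 b3).trans ?_
      have h5 : ℓ ≤ X * s ^ 2 := by
        rw [div_le_iff₀ hXp] at hsL
        linarith only [hsL]
      calc κ0 * ℓ ≤ κ0 * (X * s ^ 2) := mul_le_mul_of_nonneg_left h5 hκ0.le
        _ = θ * s ^ 2 := by rw [hθ]; ring
  obtain ⟨w0, hw0, -, hw2⟩ := hS f p (ℓ : ℂ) (g / 4) s θ (by positivity) (by linarith only [hg1]) hs4 hs5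
    hθ0 (by linarith only [hθ1]) hLc
  have hzz : p - (ℓ : ℂ) / (s : ℂ) ^ 2 = z := by
    have e1 : ((s : ℂ)) ^ 2 = ((1 / (2 * t) : ℝ) : ℂ) := by rw [← hs2]; push_cast; ring
    rw [e1, hpd, hL]
    have : (t : ℂ) ≠ 0 := by exact_mod_cast ht.ne'
    push_cast
    field_simp
    ring
  have h45 : g / 4 / 5 = a0 := by rw [ha0]; ring
  rw [hzz, h45] at hw2
  have hv1 : |w0.re - (σ + L)| ≤ θ := by
    have := (Complex.abs_re_le_norm (w0 - p)).trans hw0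
    rwa [Complex.sub_re, hpr] at this
  have hv2 : |w0.im - b| ≤ θ := by
    have := (Complex.abs_im_le_norm (w0 - p)).trans hw0
    rwa [Complex.sub_im, hpi] at this
  have hv1' := abs_le.1 hv1
  have hv2' := abs_le.1 hv2
  obtain ⟨r1, r2, r3⟩ := hreg w0 (hw0.trans (by linarith only [hθ1, hg]))
  have hlow := hPf.low w0 r1 r2 r3
  -- main term
  have hmain : G * Real.exp (M - 3 / 8 * δ * ℓ) ≤ 1 / 2 / s * ‖Q f s z w0‖ := by
    rw [Q_norm ht hs2, hzr]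
    have q0 : -((w0.re - σ) ^ 2 / (4 * t)) + ℓ * w0.re = M - (w0.re - σ - 2 * t * ℓ) ^ 2 / (4 * t) := by
      rw [sq_id ht, hM]
    have q1 : (w0.re - σ - 2 * t * ℓ) ^ 2 / (4 * t) ≤ δ / 8 * ℓ := by
      have q2 : (w0.re - σ - 2 * t * ℓ) ^ 2 ≤ θ ^ 2 := by
        rw [← hL]
        apply sq_le_sq'
        · linarith only [hv1'.1]
        · linarith only [hv1'.2]
      have q3 : θ ^ 2 / (4 * t) ≤ θ ^ 2 * ℓ / (2 * g) := inv_le ht hg h1 (sq_nonneg θ)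
      have q4 : θ ^ 2 * ℓ / (2 * g) ≤ δ / 8 * ℓ := by
        rw [div_le_iff₀ (by positivity)]
        have : θ * θ ≤ 1 * (δ * g / 8) := by
          apply mul_le_mul _ hθδ hθ0.le (by norm_num)
          linarith only [hθ1, hg1]
        have h6 : θ * θ * ℓ ≤ 1 * (δ * g / 8) * ℓ := mul_le_mul_of_nonneg_right this hℓ.le
        have h7 : 0 < δ * g * ℓ := by positivity
        linarith only [h6, h7]
      exact ((by gcongr : (w0.re - σ - 2 * t * ℓ) ^ 2 / (4 * t) ≤ θ ^ 2 / (4 * t)).trans q3).trans q4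
    have q5 : 0 ≤ (w0.im - z.im) ^ 2 / (4 * t) := by positivity
    have q6 : Real.exp (-(δ / 8 * ℓ)) ≤ 1 / 2 / s := by
      rw [Real.exp_neg, ← one_div, div_div]
      apply one_div_le_one_div_of_le (by positivity)
      refine le_trans ?_ hℓ5
      have : s * 1 ≤ s * s := mul_le_mul_of_nonneg_left hs1 hsp.le
      calc 2 * s ≤ 2 * s ^ 2 := by linarith only [this]
        _ ≤ 2 * (ℓ / g) := by linarith only [hsL2]
        _ = 2 * ℓ / g := by ring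
    have q7 : κ0 * ℓ ≤ δ / 8 * ℓ := mul_le_mul_of_nonneg_right hκ0δ hℓ.le
    calc G * Real.exp (M - 3 / 8 * δ * ℓ)
        ≤ G * Real.exp (-(δ / 8 * ℓ) + (-(((w0.re - σ) ^ 2 - (w0.im - z.im) ^ 2) / (4 * t)) +
            (ℓ * w0.re - κ0 * ℓ))) := by
          have : M - 3 / 8 * δ * ℓ ≤ -(δ / 8 * ℓ) + (-(((w0.re - σ) ^ 2 - (w0.im - z.im) ^ 2) / (4 * t)) +
              (ℓ * w0.re - κ0 * ℓ)) := by
            rw [sub_div]
            linarith only [q0, q1, q5, q7]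
          gcongr
      _ = Real.exp (-(δ / 8 * ℓ)) * (Real.exp (-(((w0.re - σ) ^ 2 - (w0.im - z.im) ^ 2) / (4 * t))) *
            (G * Real.exp (ℓ * w0.re - κ0 * ℓ))) := by
          rw [Real.exp_add, Real.exp_add]; ring
      _ ≤ 1 / 2 / s * (Real.exp (-(((w0.re - σ) ^ 2 - (w0.im - z.im) ^ 2) / (4 * t))) * ‖f w0‖) := by
          gcongr
  -- near bound
  have hva3 : a0 < w0.re := by
    rw [ha0]; linarith only [hv1'.1, hC2, hθ1, hg, hϑ]
  have hva2 : w0.re + a0 ≤ R := by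
    rw [ha0, hR]; linarith only [hv1'.2, ha2, hLX, hθ1, hg1, hXp, hY, hg]
  have hδℓ : 0 < δ * ℓ := by positivity
  have himq : ∀ y : ℝ, |y - b| ≤ ζ * L → (y - b) ^ 2 / (4 * t) ≤ δ * ℓ := by
    intro y hy
    rw [div_le_iff₀ (by positivity)]
    have h3 : (y - b) ^ 2 ≤ (ζ * L) ^ 2 := by
      rw [← sq_abs]; gcongr
    have h4 : (ζ * L) ^ 2 = ζ ^ 2 * L * (2 * t * ℓ) := by rw [hL]; ring
    have h5 : ζ ^ 2 * L * (2 * t * ℓ) ≤ ζ ^ 2 * X * (2 * t * ℓ) := by gcongr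
    have h6 : δ * ℓ * (4 * t) = ζ ^ 2 * X * (2 * t * ℓ) := by rw [hδ]; ring
    linarith only [h3, h4, h5, h6]
  have hnear : ∀ w : ℂ, ϑ ≤ w.re → w.re ≤ R → |w.im| ≤ R → |w.im - b| ≤ ζ * L → a0 ≤ |w.re - w0.re| →
      ‖Q f s z w‖ ≤ G * Real.exp (M - 3 / 4 * κ * ℓ) := by
    intro w p1 p2 p3 p4 p5
    rw [Q_norm ht hs2, hzr, hzi]
    have hoff := off (r := w.re) (ϑ := min w.re (t * ℓ + σ - g / 4)) (v0 := w0.re) (θ := θ) (κ := κ)
      (g := g) (σ := σ) ht hℓ hXp h2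
      (by have := min_le_right w.re (t * ℓ + σ - g / 4); linarith only [this]) ha00
      (by rw [ha0]; linarith only [hθ1, hg]) (by rw [← hL]; exact hv1) p5 hκ1 hκ2
    rw [← hM, max_eq_left (min_le_left _ _)] at hoff
    have p0 : 0 ≤ w.re := hϑ.trans p1
    have hu := hPf.upp w (by rw [abs_of_nonneg p0]; exact p2) p3
    rw [abs_of_nonneg p0, max_eq_left p1] at hu
    have hi := himq w.im p4
    have q7 : κ0 * ℓ ≤ δ / 8 * ℓ := mul_le_mul_of_nonneg_right hκ0δ hℓ.le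
    have q8 : 32 * δ * ℓ ≤ κ * ℓ := mul_le_mul_of_nonneg_right hδκ hℓ.le
    calc Real.exp (-(((w.re - σ) ^ 2 - (w.im - b) ^ 2) / (4 * t))) * ‖f w‖
        ≤ Real.exp (-(((w.re - σ) ^ 2 - (w.im - b) ^ 2) / (4 * t))) *
          (G * Real.exp (ℓ * w.re + κ0 * ℓ)) := by gcongr
      _ = G * Real.exp (-(((w.re - σ) ^ 2 - (w.im - b) ^ 2) / (4 * t)) +
          (ℓ * w.re + κ0 * ℓ)) := by
          rw [mul_left_comm, ← Real.exp_add]
      _ ≤ _ := by
          have : -(((w.re - σ) ^ 2 - (w.im - b) ^ 2) / (4 * t)) + (ℓ * w.re + κ0 * ℓ) ≤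
              M - 3 / 4 * κ * ℓ := by
            rw [sub_div]
            linarith only [hoff, hi, q7, q8, hδℓ]
          gcongr
  have hκℓ : 0 < κ * ℓ := by positivity
  have himw0 : |w0.im| ≤ 1 := by
    rw [abs_le]
    constructor <;> linarith only [hv2'.1, hv2'.2, hbL'.1, hbL'.2, hg1, hθ1]
  have hvert : ∀ x η : ℝ, (x = w0.re - a0 ∨ x = w0.re + a0) → η ∈ uIcc 0 w0.im →
      ‖Q f s z (x + η * I)‖ ≤ G * Real.exp (M - κ * ℓ / 2) := by
    intro x η hx hη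
    have e1 : ((x : ℂ) + η * I).re = x := by simp
    have e2 : ((x : ℂ) + η * I).im = η := by simp
    have hx0 : ϑ ≤ x := by
      rcases hx with rfl | rfl
      · rw [ha0]; linarith only [hv1'.1, hC2, hθ1, hg]
      · rw [ha0]; linarith only [hv1'.1, hC2, hθ1, hg]
    have hxR : x ≤ R := by
      rcases hx with rfl | rfl
      · linarith only [hva2, ha00]
      · exact hva2
    have himw0' := abs_le.1 himw0
    have hη1 : |η| ≤ R := by
      rw [mem_uIcc] at hη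
      rw [abs_le]
      rcases hη with hη | hη
      · constructor <;> linarith only [hη.1, hη.2, himw0'.1, himw0'.2, hR12]
      · constructor <;> linarith only [hη.1, hη.2, himw0'.1, himw0'.2, hR12]
    have hbL2 := abs_le.1 hbL
    have hη2 : |η - b| ≤ ζ * L := by
      rw [mem_uIcc] at hη
      rw [abs_le]
      rcases hη with hη | hη
      · constructor <;> linarith only [hη.1, hη.2, hv2'.1, hv2'.2, hbL2.1, hbL2.2, hθL]
      · constructor <;> linarith only [hη.1, hη.2, hv2'.1, hv2'.2, hbL2.1, hbL2.2, hθL]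
    refine (hnear _ (by rw [e1]; exact hx0) (by rw [e1]; exact hxR) (by rw [e2]; exact hη1)
      (by rw [e2]; exact hη2) ?_).trans ?_
    · rw [e1]
      rcases hx with rfl | rfl
      · rw [sub_sub_cancel_left, abs_neg, abs_of_pos ha00]
      · rw [add_sub_cancel_left, abs_of_pos ha00]
    · have : M - 3 / 4 * κ * ℓ ≤ M - κ * ℓ / 2 := by linarith only [hκℓ]
      gcongr
  have hQd := Q_diff hUD.slow.1 s z
  have hshift := shift hQd a0 _ w0 hvert himw0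
  -- the half-line
  have hQc : Continuous fun r : ℝ => Q f s z r := hQd.continuous.comp Complex.continuous_ofReal
  have hB0 : 0 ≤ G * Real.exp (M - κ * ℓ / 2) := by positivity
  have hhalf := half hQc hva3 ha00 hB0 (by
    intro r hr0 hra
    have e1 : (r : ℂ).re = r := Complex.ofReal_re r
    have e2 : (r : ℂ).im = 0 := Complex.ofReal_im r
    rw [mul_assoc, ← Real.exp_add]
    rcases le_or_gt r R with hrR | hrR
    · have h5 : ‖Q f s z (r : ℂ)‖ ≤ G * Real.exp (M - 3 / 4 * κ * ℓ) := by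
        rcases le_or_gt r ϑ with hrϑ | hrϑ
        · obtain ⟨u1, u2⟩ := hm r hr0.le hrϑ
          rw [Q_norm ht hs2, hzr, hzi, e1, e2]
          have u3 : -((r - σ) ^ 2 / (4 * t)) = -(r ^ 2 / (4 * t)) + a.re * r - t * a.re ^ 2 := by
            rw [hσ]; field_simp; ring
          have u4 : M = t * (ℓ + a.re) ^ 2 - t * a.re ^ 2 := by rw [hM, hσ]; ring
          have u5 := himq 0 (by rw [zero_sub, abs_neg]; exact hbL)
          have q7 : κ0 * ℓ ≤ δ / 8 * ℓ := mul_le_mul_of_nonneg_right hκ0δ hℓ.le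
          have q8 : 32 * δ * ℓ ≤ κ * ℓ := mul_le_mul_of_nonneg_right hδκ hℓ.le
          calc Real.exp (-(((r - σ) ^ 2 - (0 - b) ^ 2) / (4 * t))) * ‖f (r : ℂ)‖
              ≤ Real.exp (-(((r - σ) ^ 2 - (0 - b) ^ 2) / (4 * t))) *
                (G * Real.exp (m r + κ0 * ℓ)) := by gcongr
            _ = G * Real.exp (-(((r - σ) ^ 2 - (0 - b) ^ 2) / (4 * t)) + (m r + κ0 * ℓ)) := by
                rw [mul_left_comm, ← Real.exp_add]
            _ ≤ _ := by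
                have : -(((r - σ) ^ 2 - (0 - b) ^ 2) / (4 * t)) + (m r + κ0 * ℓ) ≤
                    M - 3 / 4 * κ * ℓ := by
                  rw [sub_div]
                  linarith only [u2, u3, u4, u5, q7, q8, hδℓ]
                gcongr
        · exact hnear (r : ℂ) (by rw [e1]; exact hrϑ.le) (by rw [e1]; exact hrR)
            (by rw [e2, abs_zero]; linarith only [hR12])
            (by rw [e2, zero_sub, abs_neg]; exact hbL) (by rw [e1]; exact hra)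
      refine h5.trans ?_
      have : M - 3 / 4 * κ * ℓ ≤ M - κ * ℓ / 2 + -r := by linarith only [hℓ2, hrR, hR12]
      gcongr
    · rw [Q_norm ht hs2, hzr, hzi, e1, e2]
      have h5 := hUD.up (r : ℂ)
      have e3 : ‖(r : ℂ)‖ = r := by rw [Complex.norm_real, Real.norm_eq_abs, abs_of_pos hr0]
      rw [e1, e3, abs_of_pos hr0] at h5
      have h6 := far (r := r) (ϑ0 := ϑ0) (K := K) (κ := κ) ht hℓ hX hY hK hϑ02 h2 ha2
        (by rw [← hR]; exact hrR.le) hκ3 hℓ1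
      rw [← hM] at h6
      have h7 := himq 0 (by rw [zero_sub, abs_neg]; exact hbL)
      have q8 : 32 * δ * ℓ ≤ κ * ℓ := mul_le_mul_of_nonneg_right hδκ hℓ.le
      calc Real.exp (-(((r - σ) ^ 2 - (0 - b) ^ 2) / (4 * t))) * ‖f (r : ℂ)‖
          ≤ Real.exp (-(((r - σ) ^ 2 - (0 - b) ^ 2) / (4 * t))) *
            (G * Real.exp (ℓ * max r ϑ0 + K * (1 + r ^ 2))) := by gcongr
        _ = G * Real.exp (-(((r - σ) ^ 2 - (0 - b) ^ 2) / (4 * t)) +
            (ℓ * max r ϑ0 + K * (1 + r ^ 2))) := by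
            rw [mul_left_comm, ← Real.exp_add]
        _ ≤ _ := by
            have : -(((r - σ) ^ 2 - (0 - b) ^ 2) / (4 * t)) + (ℓ * max r ϑ0 + K * (1 + r ^ 2)) ≤
                M - κ * ℓ / 2 + -r := by
              rw [sub_div]
              linarith only [h6, h7, q8, hδℓ]
            gcongr)
  have hfin : G * Real.exp (M - δ * ℓ) ≤ ‖∫ r in Ioi (0 : ℝ), Q f s z r‖ := by
    refine fin_num hG hδκ hδp hℓ3 (J := ‖∫ r in (w0.re - a0)..(w0.re + a0), Q f s z r‖ -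
      G * Real.exp (M - κ * ℓ / 2)) ?_ hhalf hℓ
    linarith only [hmain.trans hw2, hshift]
  -- back to J
  have hJ : ∫ r in Ioi (0 : ℝ), Q f s z r = cexp (-(t * a ^ 2)) * J t f a := by
    unfold J
    rw [← integral_const_mul]
    refine integral_congr_ae (Eventually.of_forall fun r => ?_)
    simp only
    rw [hz]
    exact Q_J ht hs2 f a r
  rw [hJ, norm_mul, Complex.norm_exp] at hfin
  have e2 : (-((t : ℂ) * a ^ 2)).re = -(t * (a.re ^ 2 - a.im ^ 2)) := by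
    rw [Complex.neg_re, Complex.re_ofReal_mul, re_sq]
  rw [e2] at hfin
  have e5 : ‖J t f a‖ = Real.exp (t * (a.re ^ 2 - a.im ^ 2)) *
      (Real.exp (-(t * (a.re ^ 2 - a.im ^ 2))) * ‖J t f a‖) := by
    rw [← mul_assoc, ← Real.exp_add]; simp
  rw [e5]
  have e6 : t * a.im ^ 2 ≤ δ * ℓ := by
    have h3 := himq 0 (by rw [zero_sub, abs_neg]; exact hbL)
    have h4 : (0 - b) ^ 2 / (4 * t) = t * a.im ^ 2 := by
      rw [hb]; field_simp; ring
    rw [h4] at h3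
    exact h3
  calc G * Real.exp (t * (ℓ + a.re) ^ 2 - ζ ^ 2 * X * ℓ)
      ≤ G * Real.exp (t * (a.re ^ 2 - a.im ^ 2) + (M - δ * ℓ)) := by
        have : t * (ℓ + a.re) ^ 2 - ζ ^ 2 * X * ℓ ≤ t * (a.re ^ 2 - a.im ^ 2) + (M - δ * ℓ) := by
          have e7 : t * (ℓ + a.re) ^ 2 = t * a.re ^ 2 + M := by rw [hM, hσ]; ring
          have e8 : ζ ^ 2 * X * ℓ = δ * ℓ + δ * ℓ := by rw [hδ]; ring
          rw [e7, e8]
          linarith only [e6]
        gcongr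
    _ = Real.exp (t * (a.re ^ 2 - a.im ^ 2)) * (G * Real.exp (M - δ * ℓ)) := by
        rw [Real.exp_add]; ring
    _ ≤ _ := by gcongr

theorem jl2_of (hS : S_SADL) : S_JL2 := by
  intro K ϑ0 ϑ M0 g X Y hK h01 h02 hϑ hϑ3 hM0 hMϑ hg hg1 hX hY
  have hXp : 0 < X := by linarith
  obtain ⟨g', hg'⟩ : ∃ g' : ℝ, g' = g / 4 := ⟨_, rfl⟩
  have hg'p : 0 < g' := by rw [hg']; positivity
  refine ⟨min (g' / (160 * X)) (g ^ 2 / (576 * X ^ 2)), lt_min (by positivity) (by positivity), ?_⟩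
  intro ζ hζ hζ1
  have hζ2 : ζ * (160 * X) ≤ g' :=
    (le_div_iff₀ (by positivity)).1 (hζ1.trans (min_le_left _ _))
  have hζ3 : ζ * X ≤ g ^ 2 / (576 * X) := by
    have h3 : ζ ≤ g ^ 2 / (576 * X ^ 2) := hζ1.trans (min_le_right _ _)
    have h4 : ζ * X ≤ g ^ 2 / (576 * X ^ 2) * X := mul_le_mul_of_nonneg_right h3 hXp.le
    have h5 : g ^ 2 / (576 * X ^ 2) * X = g ^ 2 / (576 * X) := by field_simp
    linarith only [h4, h5]
  obtain ⟨κ, hκ⟩ : ∃ κ : ℝ, κ = g' ^ 2 / (1600 * X) := ⟨_, rfl⟩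
  obtain ⟨δ, hδ⟩ : ∃ δ : ℝ, δ = ζ ^ 2 * X / 2 := ⟨_, rfl⟩
  have hκp : 0 < κ := by rw [hκ]; positivity
  have hδp : 0 < δ := by rw [hδ]; positivity
  have hκc : κ ≤ g ^ 2 / (576 * X) := by
    rw [hκ, hg', div_le_div_iff₀ (by positivity) (by positivity)]
    have : 0 < g ^ 2 * X := by positivity
    nlinarith only [this]
  obtain ⟨ℓ1, hℓ1⟩ : ∃ ℓ1 : ℝ, ∀ ℓ : ℝ, ℓ1 ≤ ℓ → 2 * ℓ / g' ≤ Real.exp (δ / 8 * ℓ) := by
    have h1 : Tendsto (fun x : ℝ => Real.exp (δ / 8 * x) / x) atTop atTop := by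
      have := tendsto_exp_mul_div_rpow_atTop 1 (δ / 8) (by positivity)
      simpa using this
    obtain ⟨t3, ht3⟩ := Filter.eventually_atTop.1 ((h1.eventually_ge_atTop (2 / g')).and
      (eventually_gt_atTop (0 : ℝ)))
    refine ⟨t3, fun ℓ hℓ => ?_⟩
    obtain ⟨h3, h4⟩ := ht3 ℓ hℓ
    rw [le_div_iff₀ h4] at h3
    calc 2 * ℓ / g' = 2 / g' * ℓ := by ring
      _ ≤ _ := h3
  refine ⟨min (g' / (400000 * X)) (δ * g' / (8 * X)),
    max (max (16 * X * (2 * K + 1)) (8 * (2 * X + 2 * Y + 4) / κ))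
      (max (max (8 / δ) (X * (30000 ^ 2 + 400 / g' ^ 2))) ℓ1), ?_, ?_⟩
  · exact lt_min (by positivity) (by positivity)
  intro ℓ G t f hℓ hUD hPf hMj ht h1 h2 a ha1 ha2 ha3
  have g1 := (le_max_left _ _).trans hℓ
  have g2 := (le_max_right _ _).trans hℓ
  have k1 := (le_max_left _ _).trans g1
  have k2 := (le_max_right _ _).trans g1
  have k3 := (le_max_left _ _).trans ((le_max_left _ _).trans g2)
  have k4 := (le_max_right _ _).trans ((le_max_left _ _).trans g2)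
  have k5 := (le_max_right _ _).trans g2
  rw [div_le_iff₀ hκp] at k2
  rw [div_le_iff₀ hδp] at k3
  have hκ01 : min (g' / (400000 * X)) (δ * g' / (8 * X)) * (400000 * X) ≤ g' := by
    rw [← le_div_iff₀ (by positivity)]
    exact min_le_left _ _
  have hκ02 : min (g' / (400000 * X)) (δ * g' / (8 * X)) * (8 * X) ≤ δ * g' := by
    rw [← le_div_iff₀ (by positivity)]
    exact min_le_right _ _
  have hℓp : 0 < ℓ := by
    have : 0 < 16 * X * (2 * K + 1) := by positivity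
    linarith only [k1, this]
  have hϑp : 0 < ϑ := by linarith only [hϑ]
  have hLp : 0 < 2 * t * ℓ := by positivity
  have hL6 : ϑ + g / 6 ≤ 2 * t * ℓ := by
    have h3 : 2 * ϑ ^ 2 + g ≤ 2 * ϑ * (2 * t * ℓ) := by
      have : 0 ≤ M0 * (2 * t * ℓ) := by positivity
      nlinarith only [h1, this]
    have h5 : 0 < 2 * t * ℓ - ϑ := by
      by_contra hcon
      push Not at hcon
      nlinarith only [hcon, h3, hg, hϑp]
    have h4 : g ≤ 2 * ϑ * (2 * t * ℓ - ϑ) := by nlinarith only [h3]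
    have h6 : 2 * ϑ * (2 * t * ℓ - ϑ) ≤ 6 * (2 * t * ℓ - ϑ) := by nlinarith only [h5, hϑ3]
    linarith only [h4, h6]
  refine core2 hS hK h02 hϑp.le hg'p (by rw [hg']; linarith only [hg1]) hX hY hζ hζ2 hκ hδ
    (lt_min (by positivity) (by positivity)) hκ01 hκ02 hUD hPf ht
    (by rw [hg']; linarith only [hL6, hϑ, hg1, hg]) h2 k1 (by linarith only [k2])
    (by linarith only [k3]) k4 (hℓ1 ℓ k5) a ha1 ha2 ?_ (fun r => ℓ * (M0 + (1 - M0 / ϑ) * r)) ?_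
  · have c3 : -(ζ * (2 * t * ℓ)) ≤ 2 * t * a.re := by
      have := mul_le_mul_of_nonneg_left ha3 (by positivity : (0 : ℝ) ≤ 2 * t)
      linarith only [this]
    have c4 : ζ * (2 * t * ℓ) ≤ ζ * X := mul_le_mul_of_nonneg_left h2 hζ.le
    rw [hg'] at hζ2 ⊢
    linarith only [hL6, c3, c4, hζ2, hg]
  · intro r hr0 hr1
    refine ⟨hMj r hr0 hr1, ?_⟩
    have h3 := ql2 (ζ := ζ) (α := a.re) hϑ hϑ3 hM0 hMϑ hg hX ht hℓp h1 h2 hr0 hr1 hζ.le hζ3 ha3
    have h4 : κ * ℓ ≤ g ^ 2 / (576 * X) * ℓ := mul_le_mul_of_nonneg_right hκc hℓp.le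
    linarith only [h3, h4]

end Pool.Agent.W816.HF
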