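import Pool.Agent.W169.HF.DefsC
import Pool.Agent.W363.HF.JU

/-!
# SC-JU2: upper bound for the half-line integral with a majorant (after `Pool.Agent.W363.HF.JU`)
-/

set_option autoImplicit false

namespace Pool.Agent.W816.HF

open Complex Filter Topology MeasureTheory Set
open Pool.Agent.W169.HF Pool.Agent.W363.HF

theorem ju2 : S_JU2 := by
  intro K ϑ0 ϑ M0 g X Y hK hϑ01 hϑ02 hϑ hϑ3 hM hMϑ hg hg1 hX hY
  refine ⟨g ^ 2 / (576 * X ^ 2), by positivity, ?_⟩
  intro κ hκ
  refine ⟨max (8 * X * (2 * K + 1)) (max ((2 * X + 2 * Y + 4) / κ) 1), ?_⟩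
  intro ℓ G t f hℓ hud hpf hmj ht hg2 hX2 α hα hα2
  have hℓ1 : 8 * X * (2 * K + 1) ≤ ℓ := (le_max_left _ _).trans hℓ
  have hℓ2 : (2 * X + 2 * Y + 4) / κ ≤ ℓ := ((le_max_left _ _).trans (le_max_right _ _)).trans hℓ
  have hℓ3 : 1 ≤ ℓ := ((le_max_right _ _).trans (le_max_right _ _)).trans hℓ
  rw [div_le_iff₀ hκ] at hℓ2
  have hℓ0 : 0 < ℓ := by linarith
  have hG := hud.hG
  set R : ℝ := 2 * X + 2 * Y + 4 with hR
  set E : ℝ := t * (ℓ + α) ^ 2 with hE
  have hb : ∀ r ∈ Ioi (0 : ℝ), Real.exp (-(r ^ 2 / (4 * t)) + α * r) * ‖f r‖ ≤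
      G * Real.exp (E + κ * ℓ + R) * Real.exp (-r) := by
    intro r hr
    rw [mem_Ioi] at hr
    rcases le_or_gt r R with h1 | h1
    · -- a bound of the form `G exp (b + κ ℓ)` for `f r`
      have hbb : ∃ b : ℝ, ‖f r‖ ≤ G * Real.exp (b + κ * ℓ) ∧
          -(r ^ 2 / (4 * t)) + α * r + b ≤ E := by
        rcases le_or_gt r ϑ with h2 | h2
        · refine ⟨ℓ * (M0 + (1 - M0 / ϑ) * r), hmj r hr.le h2, ?_⟩
          have h3 := ql2 (ζ := g ^ 2 / (576 * X ^ 2)) (α := α) hϑ hϑ3 hM hMϑ hg hX ht hℓ0 hg2 hX2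
            hr.le h2 (by positivity) (le_of_eq (by field_simp)) hα2
          have h4 : 0 ≤ g ^ 2 / (576 * X) * ℓ := by positivity
          linarith
        · have h3 := hpf.upp (r : ℂ) (by rw [ofReal_re, abs_of_pos hr]; exact h1)
            (by rw [ofReal_im, abs_zero]; linarith)
          rw [ofReal_re, abs_of_pos hr, max_eq_left h2.le] at h3
          exact ⟨ℓ * r, h3, quad_max ht⟩
      obtain ⟨b, h2, h3⟩ := hbb
      calc Real.exp (-(r ^ 2 / (4 * t)) + α * r) * ‖f r‖
          ≤ Real.exp (-(r ^ 2 / (4 * t)) + α * r) * (G * Real.exp (b + κ * ℓ)) := by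
            gcongr
        _ = G * Real.exp (-(r ^ 2 / (4 * t)) + α * r + (b + κ * ℓ)) := by
            rw [Real.exp_add (-(r ^ 2 / (4 * t)) + α * r)]
            ring
        _ ≤ G * Real.exp (E + κ * ℓ + R + -r) := by
            have : -(r ^ 2 / (4 * t)) + α * r + (b + κ * ℓ) ≤ E + κ * ℓ + R + -r := by
              linarith
            gcongr
        _ = _ := by rw [Real.exp_add (E + κ * ℓ + R), mul_assoc]
    · have h2 := hud.up (r : ℂ)
      rw [ofReal_re, abs_of_pos hr, max_eq_left (by linarith : ϑ0 ≤ r), norm_real,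
        Real.norm_eq_abs, sq_abs] at h2
      have h3 : 2 * t * (ℓ + α) ≤ r / 2 := by linarith
      have hr1 : 1 ≤ r := by linarith
      have h4 : r ^ 2 / 4 ≤ (r - 2 * t * (ℓ + α)) ^ 2 := by
        have : r / 2 ≤ r - 2 * t * (ℓ + α) := by linarith
        nlinarith
      have h5 : r ^ 2 * (2 * K + 1) ≤ (r - 2 * t * (ℓ + α)) ^ 2 / (4 * t) := by
        rw [le_div_iff₀ (by positivity)]
        have h6 : 16 * t * (2 * K + 1) ≤ 1 := by
          have h7 : 2 * t * (8 * X * (2 * K + 1)) ≤ 2 * t * ℓ :=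
            mul_le_mul_of_nonneg_left hℓ1 (by positivity)
          have h8 : 2 * t * (8 * X * (2 * K + 1)) ≤ X := h7.trans hX2
          have h9 : X * (16 * t * (2 * K + 1)) ≤ X * 1 := by linarith
          exact le_of_mul_le_mul_left h9 (by linarith)
        have h10 : r ^ 2 * (2 * K + 1) * (4 * t) = r ^ 2 / 4 * (16 * t * (2 * K + 1)) := by ring
        rw [h10]
        have : r ^ 2 / 4 * (16 * t * (2 * K + 1)) ≤ r ^ 2 / 4 * 1 :=
          mul_le_mul_of_nonneg_left h6 (by positivity)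
        linarith
      have h6 := quad_eq (t := t) (L := ℓ) (α := α) (r := r) ht
      calc Real.exp (-(r ^ 2 / (4 * t)) + α * r) * ‖f r‖
          ≤ Real.exp (-(r ^ 2 / (4 * t)) + α * r) *
            (G * Real.exp (ℓ * r + K * (1 + r ^ 2))) := by gcongr
        _ = G * Real.exp (-(r ^ 2 / (4 * t)) + α * r + (ℓ * r + K * (1 + r ^ 2))) := by
            rw [Real.exp_add (-(r ^ 2 / (4 * t)) + α * r)]
            ring
        _ ≤ G * Real.exp (E + κ * ℓ + R + -r) := by
            have : -(r ^ 2 / (4 * t)) + α * r + (ℓ * r + K * (1 + r ^ 2)) ≤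
                E + κ * ℓ + R + -r := by
              have h7 : K * (1 + r ^ 2) ≤ K * (2 * r ^ 2) := by
                apply mul_le_mul_of_nonneg_left _ (by linarith)
                nlinarith
              have h8 : 0 ≤ κ * ℓ := by positivity
              have h9 : r ≤ r ^ 2 := by nlinarith
              have h10 : 0 < R := by linarith
              nlinarith
            gcongr
        _ = _ := by rw [Real.exp_add (E + κ * ℓ + R), mul_assoc]
  have hint := expint.1.const_mul (G * Real.exp (E + κ * ℓ + R))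
  have hcont : Continuous fun r : ℝ => Real.exp (-(r ^ 2 / (4 * t)) + α * r) * ‖f r‖ := by
    have h1 : Continuous f := hud.slow.1.continuous
    fun_prop
  have hI : IntegrableOn (fun r : ℝ => Real.exp (-(r ^ 2 / (4 * t)) + α * r) * ‖f r‖) (Ioi 0) := by
    refine hint.mono' hcont.aestronglyMeasurable ?_
    refine (ae_restrict_mem measurableSet_Ioi).mono fun r hr => ?_
    rw [Real.norm_eq_abs, abs_of_nonneg (by positivity)]
    exact hb r hr
  refine ⟨hI, ?_⟩
  refine (setIntegral_mono_on hI hint measurableSet_Ioi hb).trans ?_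
  rw [integral_const_mul, expint.2, mul_one]
  have h1 : E + κ * ℓ + R ≤ E + 2 * κ * ℓ := by linarith
  gcongr

end Pool.Agent.W816.HF
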